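import Pool.Agent.P.MP_5af56b_co.Tor.Min
import Pool.Agent.P.MP_5af56b_co.Kl.Main

namespace Pool.Agent.Results.MP_5af56b_co.EulerGenusTwo

open Pool.Agent.P.MP_5af56b_co Pool.Agent.P.MP_5af56b_co.Tor

/-- The `n × n` grid on a closed surface: `n` cycles of length `n`, vertex `(i, j)` has the label
`i * n + j` and is joined to `(i + 1, j)`; the vertex `(n - 1, j)` is joined to `(0, j)` (torus,
`tw = false`) or to `(0, -j)` (Klein bottle, `tw = true`). -/
def grid (tw : Bool) (n : ℕ) : MG :=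
  ofList ((List.range n).flatMap fun i => (List.range n).flatMap fun j =>
    [(i * n + j, i * n + (j + 1) % n),
     (i * n + j, if i + 1 < n then (i + 1) * n + j else if tw then (n - j) % n else j)])

theorem grid_true (n : ℕ) : grid true n = Kl.klein n := rfl

theorem grid_false (n : ℕ) : grid false n = torus n := by
  refine congrArg ofList (List.flatMap_congr fun i hi => List.flatMap_congr fun j _ => ?_)
  have hi' := List.mem_range.1 hi
  by_cases h : i + 1 < n
  · rw [if_pos h, Nat.mod_eq_of_lt h]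
  · rw [if_neg h, show i + 1 = n by omega, Nat.mod_self, Nat.zero_mul, Nat.zero_add]
    rfl

theorem result : ∀ (G : MG) (tw : Bool) (n : ℕ), 3 ≤ n → IsMinor G (grid tw n) →
    (MinNonRed G ↔ ∃ H : MG, (PetersenFamily H ∨ H = k55m) ∧ Iso G H) := by
  refine fun G tw n hn hG => ⟨fun hM => ?_, fun ⟨_, hH, h⟩ =>
    pMin pA1 (pA2 pA1) (pFin pA1) (pFam pA1 (pA2 pA1)) hH h⟩
  cases tw
  · exact qRes.2 G ⟨n, hn, grid_false n ▸ hG⟩ hM
  · exact Kl.qRes G ⟨n, hn, grid_true n ▸ hG⟩ hM

end Pool.Agent.Results.MP_5af56b_co.EulerGenusTwo
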