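import Pool.Agent.P.MP_5af56b_co.Glue
import Pool.Agent.P.MP_5af56b_co.AllCert

namespace Pool.Agent.Results.MP_5af56b_co.NewMinors

open Pool.Agent.P.MP_5af56b_co

/-- `G` is `k`-connected: more than `k` vertices, and connected after deleting fewer than `k`. -/
def KConn (k : ℕ) (G : MG) : Prop :=
  k < G.V.card ∧ ∀ X : Finset ℕ, X.card < k → ConnOn G {x | x ∈ G.V ∧ x ∉ X}

theorem result : ∀ (k : ℕ) (A B : List (ℕ × ℕ)), A ∈ pieces k → B ∈ pieces k →
    ∀ σ : Equiv.Perm (Fin k), MinNonRed (glue k σ A B) ∧ KConn k (glue k σ A B) := by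
  intro k A B hA hB σ
  obtain ⟨⟨h2, h4⟩, pA⟩ := pieces_ok k A hA
  obtain ⟨-, pB⟩ := pieces_ok k B hB
  obtain ⟨h5, h6⟩ := glue_main h2 h4 pA pB σ
  refine ⟨h5, ?_, h6⟩
  have hE : ∀ p q, adjL A p q → s(p, q) ∈ (glue k σ A B).E := fun p q h =>
    ofList_E.2 ⟨(pA.adj h).2.2.1, h.imp (List.mem_append_left _) (List.mem_append_left _)⟩
  obtain ⟨v, -, -, hv, -⟩ := pA.deg2 0 (by omega)
  have hk : k ≤ v := by have := (pA.adj hv).2.2.2; omega
  have h := pA.deg4 v 0 hk hv.symm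
  simp only [not_forall] at h
  obtain ⟨a, a1, -⟩ := h 0 0 0
  obtain ⟨b, b1, b2⟩ := h a a a
  obtain ⟨c, c1, c2⟩ := h a b b
  obtain ⟨d, d1, d2⟩ := h a b c
  have n1 := (pA.adj a1).2.2.1
  have n2 := (pA.adj b1).2.2.1
  have n3 := (pA.adj c1).2.2.1
  have n4 := (pA.adj d1).2.2.1
  simp only [T3, not_or] at b2 c2 d2
  have hs : ({v, a, b, c, d} : Finset ℕ) ⊆ (glue k σ A B).V := by
    intro x hx
    simp only [Finset.mem_insert, Finset.mem_singleton] at hx
    rcases hx with rfl | rfl | rfl | rfl | rfl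
    · exact MG.left_mem (hE _ _ a1)
    · exact MG.right_mem (hE _ _ a1)
    · exact MG.right_mem (hE _ _ b1)
    · exact MG.right_mem (hE _ _ c1)
    · exact MG.right_mem (hE _ _ d1)
  have hc : ({v, a, b, c, d} : Finset ℕ).card = 5 := by
    rw [Finset.card_insert_of_notMem (by simp; omega), Finset.card_insert_of_notMem (by simp; omega),
      Finset.card_insert_of_notMem (by simp; omega), Finset.card_pair (by omega)]
  have := Finset.card_le_card hs
  omega

end Pool.Agent.Results.MP_5af56b_co.NewMinors
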